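import Pool.Agent.T9h73.FF.Cnt
import Pool.Agent.T9h73.FF.Mom
import Pool.Agent.T9h89.FF.Par3
import Pool.Agent.T9h54.FF.Spec4

set_option autoImplicit false

/-!
# (E1I): the proof of (E1H) of helper73 (`T9h73/FF/E1h.lean`) with the parameters of `Par3`
-/

namespace Pool.Agent.T9h89.FF

open Finset Pool.Agent.T9h85.LZ Pool.Agent.T9h54.FF Pool.Agent.T9h73.FF

/-- the powers of 2 next to a power of `R` -/
theorem ceil_pow {y : ℝ} (hy : 0 < y) {η : ℝ} (hη : 0 < η) (R : ℕ) (hR : 1 ≤ R) :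
    (R : ℝ) ^ y ≤ (2 : ℝ) ^ ⌈y * Real.logb 2 R⌉₊ ∧ (2 : ℝ) ^ ⌈y * Real.logb 2 R⌉₊ ≤ 2 * (R : ℝ) ^ y ∧
      ((⌈y * Real.logb 2 R⌉₊ : ℕ) : ℝ) ≤ (y / (η * Real.log 2) + 1) * (R : ℝ) ^ η := by
  have hR0 : (0 : ℝ) < R := by exact_mod_cast hR
  have hR1 : (1 : ℝ) ≤ R := by exact_mod_cast hR
  have hlb : 0 ≤ y * Real.logb 2 R := mul_nonneg hy.le (Real.logb_nonneg (by norm_num) hR1)
  have e1 : (R : ℝ) ^ y = (2 : ℝ) ^ (y * Real.logb 2 R) := by
    rw [mul_comm, Real.rpow_mul (by norm_num), Real.rpow_logb (by norm_num) (by norm_num) hR0]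
  refine ⟨?_, ?_, ?_⟩
  · rw [e1, ← Real.rpow_natCast]
    exact Real.rpow_le_rpow_of_exponent_le (by norm_num) (Nat.le_ceil _)
  · rw [e1, ← Real.rpow_natCast]
    calc (2 : ℝ) ^ ((⌈y * Real.logb 2 R⌉₊ : ℕ) : ℝ) ≤ 2 ^ (y * Real.logb 2 R + 1) :=
          Real.rpow_le_rpow_of_exponent_le (by norm_num) (Nat.ceil_lt_add_one hlb).le
      _ = 2 * 2 ^ (y * Real.logb 2 R) := by
          rw [Real.rpow_add_one (by norm_num)]
          ring
  · refine (Nat.ceil_lt_add_one hlb).le.trans ?_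
    have h2 : Real.log R ≤ (R : ℝ) ^ η / η := Real.log_le_rpow_div hR0.le hη
    have h3 : (1 : ℝ) ≤ (R : ℝ) ^ η := Real.one_le_rpow hR1 hη.le
    have hl2 : 0 < Real.log 2 := Real.log_pos (by norm_num)
    have h4 : y * Real.logb 2 R ≤ y / (η * Real.log 2) * (R : ℝ) ^ η := by
      rw [Real.logb, mul_div_assoc', div_mul_eq_mul_div, div_le_div_iff₀ hl2 (by positivity)]
      have : Real.log R * η ≤ (R : ℝ) ^ η := by
        rw [le_div_iff₀ hη] at h2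
        exact h2
      nlinarith [mul_le_mul_of_nonneg_left this (by positivity : 0 ≤ y * Real.log 2)]
    linarith

open Classical in
set_option maxHeartbeats 4000000 in
theorem e1i : S_E1I := by
  intro ρ e h23 h1 he1
  have hρ : 0 < ρ.re := by linarith
  obtain ⟨ε, x, u, v, s, hε, hεx, hx, hu, hv, hs, P, hk, g1, g2, g3⟩ :=
    par3 ρ.re e h23 h1 he1
  set β := ρ.re with hβ
  have he0 : 0 < e := lt_trans (div_pos (by linarith) (by linarith)) he1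
  have huv : u ≤ v := by
    obtain ⟨k, -, -, h3, h4⟩ := hk ε le_rfl (by linarith)
    exact h3.trans h4
  -- the small parameter
  have hP0 : (0 : ℝ) ≤ P := Nat.cast_nonneg P
  obtain ⟨η, hη0, hη1, hη2⟩ : ∃ η : ℝ, 0 < η ∧ η * (2 + 2 * P + 3 * v) ≤ s ∧ 3 * η ≤ 2 * β - 1 := by
    have hD : (0 : ℝ) < 2 + 2 * P + 3 * v := by positivity
    refine ⟨min (s / (2 + 2 * P + 3 * v)) ((2 * β - 1) / 3), lt_min (by positivity) (by linarith),
      ?_, ?_⟩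
    · have h3 := min_le_left (s / (2 + 2 * (P : ℝ) + 3 * v)) ((2 * β - 1) / 3)
      rwa [le_div_iff₀ hD] at h3
    · have h3 := min_le_right (s / (2 + 2 * (P : ℝ) + 3 * v)) ((2 * β - 1) / 3)
      linarith
  have hη3 : 0 < s - η := by
    nlinarith [mul_nonneg hη0.le hP0, mul_pos hη0 hv]
  obtain ⟨C, hC, hmom⟩ := moment hη0 hρ P
  obtain ⟨Cp, hCp, hPV⟩ := Pool.Agent.H38R2.CG.T_PV
  -- the smallness for large R
  set c4 : ℝ := (1 + ‖ρ‖ / β) * (Cp / η) * 2 / (1 - β) with hc4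
  have hc40 : 0 ≤ c4 := by
    rw [hc4]
    apply div_nonneg _ (by linarith)
    positivity
  have hlim : ∃ R₀ : ℕ, ∀ R : ℕ, R₀ ≤ R → c4 * (R : ℝ) ^ (-(s - η)) ≤ 1 / 2 ∧ 2 ≤ (R : ℝ) ^ ε := by
    have h2 : Filter.Tendsto (fun R : ℕ => c4 * (R : ℝ) ^ (-(s - η))) Filter.atTop (nhds (c4 * 0)) :=
      ((tendsto_rpow_neg_atTop hη3).comp tendsto_natCast_atTop_atTop).const_mul c4
    rw [mul_zero] at h2
    have h3 := h2.eventually (eventually_le_nhds (by norm_num : (0 : ℝ) < 1 / 2))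
    have h4 : Filter.Tendsto (fun R : ℕ => (R : ℝ) ^ ε) Filter.atTop Filter.atTop :=
      (tendsto_rpow_atTop hε).comp tendsto_natCast_atTop_atTop
    exact Filter.eventually_atTop.1 (h3.and (h4.eventually_ge_atTop 2))
  obtain ⟨R₀, hR₀⟩ := hlim
  set c5 : ℝ := x / (η * Real.log 2) + 1 with hc5
  have hc50 : 0 < c5 := by
    have hl2 : 0 < Real.log 2 := Real.log_pos (by norm_num)
    rw [hc5]
    positivity
  have hS0 : ∀ R, 0 ≤ Cnt ρ R := fun R => sum_nonneg fun r _ => Nat.cast_nonneg _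
  refine ⟨Cnt ρ R₀ + 1 + c5 * (2 * c5) ^ (2 * P) * (2 * C), ?_⟩
  intro R hR
  have hR0 : (0 : ℝ) < R := by exact_mod_cast hR
  have hR1 : (1 : ℝ) ≤ R := by exact_mod_cast hR
  have hRe : (1 : ℝ) ≤ (R : ℝ) ^ e := Real.one_le_rpow hR1 he0.le
  have hc6 : 0 ≤ c5 * (2 * c5) ^ (2 * P) * (2 * C) := by positivity
  rcases le_total R R₀ with hle | hge
  · have h2 : Cnt ρ R ≤ Cnt ρ R₀ := sum_le_sum_of_subset_of_nonneg (range_mono hle)
      fun r _ _ => Nat.cast_nonneg _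
    have h4 : Cnt ρ R₀ ≤ Cnt ρ R₀ + 1 + c5 * (2 * c5) ^ (2 * P) * (2 * C) := by linarith
    have h5 : 0 ≤ Cnt ρ R₀ + 1 + c5 * (2 * c5) ^ (2 * P) * (2 * C) := by linarith [hS0 R₀]
    calc Cnt ρ R ≤ Cnt ρ R₀ + 1 + c5 * (2 * c5) ^ (2 * P) * (2 * C) := h2.trans h4
      _ ≤ _ := le_mul_of_one_le_right h5 hRe
  obtain ⟨hR2, hR3⟩ := hR₀ R hge
  have hRlt : (1 : ℝ) < R := by
    by_contra h
    have h3 : (R : ℝ) = 1 := le_antisymm (not_lt.1 h) hR1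
    rw [h3, Real.one_rpow] at hR3
    norm_num at hR3
  have hlog : 0 < Real.log R := Real.log_pos hRlt
  set K : ℕ := ⌈x * Real.logb 2 R⌉₊ with hKdef
  set L : ℕ := ⌈ε * Real.logb 2 R⌉₊ with hLdef
  obtain ⟨hK1, hK2, hK3⟩ := ceil_pow hx hη0 R hR
  obtain ⟨hL1, hL2, -⟩ := ceil_pow hε hη0 R hR
  rw [← hKdef] at hK1 hK2 hK3
  rw [← hLdef] at hL1 hL2
  have hLK : L ≤ K := Nat.ceil_le_ceil (mul_le_mul_of_nonneg_right hεx
    (Real.logb_nonneg (by norm_num) hR1))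
  have hB : ∀ f : ℕ, 2 ≤ f → f ≤ R → ∀ χ : DirichletCharacter ℂ f, χ ≠ 1 →
      ∀ n : ℕ, ‖∑ k ∈ Icc 1 n, χ (k : ZMod f)‖ ≤ Cp / η * (R : ℝ) ^ (1 / 2 + η) := by
    intro f hf hfR χ hχ n
    have h2 := hPV f χ hf hχ 0 n
    have h3 : Ioc 0 n = Icc 1 n := by
      ext k; simp only [mem_Ioc, mem_Icc]; omega
    rw [h3] at h2
    refine h2.trans ?_
    have hf0 : (0 : ℝ) < f := by exact_mod_cast (by omega : 0 < f)
    have hf1 : (1 : ℝ) ≤ f := by exact_mod_cast (by omega : 1 ≤ f)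
    have hfR' : (f : ℝ) ≤ R := by exact_mod_cast hfR
    have h4 : √(f : ℝ) ≤ (R : ℝ) ^ (1 / 2 : ℝ) := by
      rw [Real.sqrt_eq_rpow]
      exact Real.rpow_le_rpow hf0.le hfR' (by norm_num)
    have h5 : Real.log f ≤ (R : ℝ) ^ η / η :=
      (Real.log_le_rpow_div hf0.le hη0).trans (by
        apply div_le_div_of_nonneg_right _ hη0.le
        exact Real.rpow_le_rpow hf0.le hfR' hη0.le)
    calc Cp * √(f : ℝ) * Real.log f ≤ Cp * (R : ℝ) ^ (1 / 2 : ℝ) * ((R : ℝ) ^ η / η) := by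
          apply mul_le_mul (mul_le_mul_of_nonneg_left h4 hCp.le) h5 (Real.log_nonneg hf1)
          positivity
      _ = _ := by rw [Real.rpow_add hR0]; ring
  have hN0 : (0 : ℝ) < (2 : ℝ) ^ K := by positivity
  have hX0 : (0 : ℝ) < (2 : ℝ) ^ L := by positivity
  have hsm : (1 + ‖ρ‖ / ρ.re) * (Cp / η * (R : ℝ) ^ (1 / 2 + η)) * ((2 ^ K : ℕ) : ℝ) ^ (-ρ.re) *
      (((2 ^ L : ℕ) : ℝ) ^ (1 - ρ.re) / (1 - ρ.re)) ≤ 1 / 2 := by
    refine le_trans ?_ hR2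
    rw [← hβ]
    push_cast
    have h1β : 0 < 1 - β := by linarith
    have e3 : ((2 : ℝ) ^ K) ^ (-β) ≤ ((R : ℝ) ^ x) ^ (-β) :=
      Real.rpow_le_rpow_of_nonpos (by positivity) hK1 (by linarith)
    have e4 : ((2 : ℝ) ^ L) ^ (1 - β) ≤ 2 * ((R : ℝ) ^ ε) ^ (1 - β) := by
      calc ((2 : ℝ) ^ L) ^ (1 - β) ≤ (2 * (R : ℝ) ^ ε) ^ (1 - β) :=
            Real.rpow_le_rpow hX0.le hL2 h1β.le
        _ = 2 ^ (1 - β) * ((R : ℝ) ^ ε) ^ (1 - β) := Real.mul_rpow (by norm_num) (by positivity)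
        _ ≤ 2 * ((R : ℝ) ^ ε) ^ (1 - β) := by
            apply mul_le_mul_of_nonneg_right _ (by positivity)
            calc (2 : ℝ) ^ (1 - β) ≤ 2 ^ (1 : ℝ) :=
                  Real.rpow_le_rpow_of_exponent_le (by norm_num) (by linarith)
              _ = 2 := Real.rpow_one 2
    have e5 : (R : ℝ) ^ (1 / 2 + η) * (((2 : ℝ) ^ K) ^ (-β) * ((2 : ℝ) ^ L) ^ (1 - β)) ≤
        2 * (R : ℝ) ^ (-(s - η)) := by
      calc (R : ℝ) ^ (1 / 2 + η) * (((2 : ℝ) ^ K) ^ (-β) * ((2 : ℝ) ^ L) ^ (1 - β)) ≤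
          (R : ℝ) ^ (1 / 2 + η) * (((R : ℝ) ^ x) ^ (-β) * (2 * ((R : ℝ) ^ ε) ^ (1 - β))) := by
            gcongr
        _ = 2 * (R : ℝ) ^ (1 / 2 + η + (x * (-β) + ε * (1 - β))) := by
            rw [← Real.rpow_mul hR0.le, ← Real.rpow_mul hR0.le, Real.rpow_add hR0 (1 / 2 + η),
              Real.rpow_add hR0 (x * (-β))]
            ring
        _ ≤ 2 * (R : ℝ) ^ (-(s - η)) := by
            apply mul_le_mul_of_nonneg_left _ (by norm_num)
            exact Real.rpow_le_rpow_of_exponent_le hR1 (by linarith)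
    calc (1 + ‖ρ‖ / β) * (Cp / η * (R : ℝ) ^ (1 / 2 + η)) * ((2 : ℝ) ^ K) ^ (-β) *
        (((2 : ℝ) ^ L) ^ (1 - β) / (1 - β)) =
        ((1 + ‖ρ‖ / β) * (Cp / η) / (1 - β)) *
          ((R : ℝ) ^ (1 / 2 + η) * (((2 : ℝ) ^ K) ^ (-β) * ((2 : ℝ) ^ L) ^ (1 - β))) := by ring
      _ ≤ ((1 + ‖ρ‖ / β) * (Cp / η) / (1 - β)) * (2 * (R : ℝ) ^ (-(s - η))) :=
          mul_le_mul_of_nonneg_left e5 (div_nonneg (by positivity) h1β.le)
      _ = c4 * (R : ℝ) ^ (-(s - η)) := by rw [hc4]; ring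
  -- the exponents
  have hkk : ∀ j : ℕ, ∃ k : ℕ, j < K → 1 ≤ k ∧ k ≤ P ∧ (R : ℝ) ^ u ≤ (((2 ^ (L + j) : ℕ) : ℝ)) ^ k ∧
      (((2 ^ (L + j) : ℕ) : ℝ)) ^ k ≤ (R : ℝ) ^ v := by
    intro j
    by_cases hj : j < K
    · set T : ℝ := ((2 ^ (L + j) : ℕ) : ℝ) with hT
      have hTe : T = (2 : ℝ) ^ (L + j) := by rw [hT]; push_cast; rfl
      have hT0 : 0 < T := by rw [hTe]; positivity
      set t : ℝ := Real.log T / Real.log R with ht
      have hTt : T = (R : ℝ) ^ t := by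
        rw [Real.rpow_def_of_pos hR0, ht, mul_div_cancel₀ _ hlog.ne', Real.exp_log hT0]
      have ht1 : ε ≤ t := by
        rw [ht, le_div_iff₀ hlog, ← Real.log_rpow hR0]
        apply Real.log_le_log (by positivity)
        rw [hTe]
        exact hL1.trans (pow_le_pow_right₀ (by norm_num) (by omega))
      have ht2 : t ≤ x + 2 * ε := by
        rw [ht, div_le_iff₀ hlog, ← Real.log_rpow hR0]
        apply Real.log_le_log hT0
        have h3 : 2 * T ≤ (2 : ℝ) ^ L * (2 : ℝ) ^ K := by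
          rw [hTe, ← pow_add, ← pow_succ']
          exact pow_le_pow_right₀ (by norm_num) (by omega)
        have h4 : (2 : ℝ) ^ L * (2 : ℝ) ^ K ≤ (2 * (R : ℝ) ^ ε) * (2 * (R : ℝ) ^ x) :=
          mul_le_mul hL2 hK2 (by positivity) (by positivity)
        have h5 : (R : ℝ) ^ (x + 2 * ε) = (R : ℝ) ^ ε * ((R : ℝ) ^ ε * (R : ℝ) ^ x) := by
          rw [← Real.rpow_add hR0, ← Real.rpow_add hR0]
          congr 1
          ring
        rw [h5]
        have h6 : 0 < (R : ℝ) ^ ε * (R : ℝ) ^ x := by positivity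
        nlinarith
      obtain ⟨k, hk1, hk2, hk3, hk4⟩ := hk t ht1 ht2
      have h7 : T ^ k = (R : ℝ) ^ (k * t) := by
        rw [hTt, ← Real.rpow_natCast, ← Real.rpow_mul hR0.le]
        congr 1
        ring
      refine ⟨k, fun _ => ⟨hk1, hk2, ?_, ?_⟩⟩
      · rw [h7]
        exact Real.rpow_le_rpow_of_exponent_le hR1 hk3
      · rw [h7]
        exact Real.rpow_le_rpow_of_exponent_le hR1 hk4
    · exact ⟨1, fun h => absurd h hj⟩
  choose kk hkk using hkk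
  have h2 := count_leX hρ h1 hB hLK hsm kk
  refine h2.trans ?_
  have hterm : ∀ j ∈ range K, (2 * (K : ℝ)) ^ (2 * kk j) * ∑ f ∈ Icc 1 R,
      ∑ χ ∈ (univ : Finset (DirichletCharacter ℂ f)).filter (fun χ => χ.IsPrimitive),
        ‖∑ m ∈ Ioc (2 ^ (L + j)) (2 * 2 ^ (L + j)),
          ((aX (2 ^ K) (2 ^ L) m : ℂ) * (m : ℂ) ^ (-ρ)) * χ (m : ZMod f)‖ ^ (2 * kk j) ≤
      ((2 * c5) ^ (2 * P) * (R : ℝ) ^ (η * (2 * P))) * (C * (2 * (R : ℝ) ^ (e - s + 3 * η * v))) := by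
    intro j hj
    rw [mem_range] at hj
    obtain ⟨hk1, hk2, hk3, hk4⟩ := hkk j hj
    have hKpos : (1 : ℝ) ≤ K := by exact_mod_cast (by omega : 1 ≤ K)
    refine mul_le_mul ?_ ((hmom (kk j) R (2 ^ K) (2 ^ L) (2 ^ (L + j)) hk1 hk2
      Nat.one_le_two_pow).trans ?_) (sum_nonneg fun f _ => sum_nonneg fun χ _ => by positivity)
      (by positivity)
    · calc (2 * (K : ℝ)) ^ (2 * kk j) ≤ (2 * (K : ℝ)) ^ (2 * P) :=
            pow_le_pow_right₀ (by linarith) (by omega)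
        _ ≤ (2 * (c5 * (R : ℝ) ^ η)) ^ (2 * P) :=
            pow_le_pow_left₀ (by positivity) (by linarith) _
        _ = (2 * c5) ^ (2 * P) * ((R : ℝ) ^ η) ^ (2 * P) := by
            rw [← mul_assoc, mul_pow]
        _ = _ := by
            congr 1
            rw [← Real.rpow_natCast, ← Real.rpow_mul hR0.le]
            push_cast
            rfl
    · apply mul_le_mul_of_nonneg_left _ hC.le
      set Y : ℝ := (((2 ^ (L + j) : ℕ) : ℝ)) ^ kk j with hY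
      have hY0 : 0 < Y := lt_of_lt_of_le (by positivity) hk3
      have f1 : Y * Y ^ (1 + 3 * η - 2 * β) ≤ (R : ℝ) ^ (e - s + 3 * η * v) := by
        have f2 : Y * Y ^ (1 + 3 * η - 2 * β) = Y ^ (2 - 2 * β + 3 * η) := by
          rw [show 2 - 2 * β + 3 * η = 1 + (1 + 3 * η - 2 * β) by ring, Real.rpow_add hY0,
            Real.rpow_one]
        rw [f2]
        calc Y ^ (2 - 2 * β + 3 * η) ≤ ((R : ℝ) ^ v) ^ (2 - 2 * β + 3 * η) :=
              Real.rpow_le_rpow hY0.le hk4 (by linarith)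
          _ = (R : ℝ) ^ (v * (2 - 2 * β + 3 * η)) := by rw [← Real.rpow_mul hR0.le]
          _ ≤ _ := Real.rpow_le_rpow_of_exponent_le hR1 (by linarith)
      have f3 : (R : ℝ) ^ 2 * Y ^ (1 + 3 * η - 2 * β) ≤ (R : ℝ) ^ (e - s + 3 * η * v) := by
        have f4 : Y ^ (1 + 3 * η - 2 * β) ≤ ((R : ℝ) ^ u) ^ (1 + 3 * η - 2 * β) :=
          Real.rpow_le_rpow_of_nonpos (by positivity) hk3 (by linarith)
        calc (R : ℝ) ^ 2 * Y ^ (1 + 3 * η - 2 * β) ≤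
            (R : ℝ) ^ 2 * ((R : ℝ) ^ u) ^ (1 + 3 * η - 2 * β) :=
              mul_le_mul_of_nonneg_left f4 (by positivity)
          _ = (R : ℝ) ^ (2 + u * (1 + 3 * η - 2 * β)) := by
              rw [← Real.rpow_mul hR0.le, ← Real.rpow_natCast (R : ℝ) 2, ← Real.rpow_add hR0]
              norm_num
          _ ≤ _ := by
              apply Real.rpow_le_rpow_of_exponent_le hR1
              have f5 : η * u ≤ η * v := mul_le_mul_of_nonneg_left huv hη0.le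
              linarith
      calc (Y + (R : ℝ) ^ 2) * Y ^ (1 + 3 * η - 2 * β) =
          Y * Y ^ (1 + 3 * η - 2 * β) + (R : ℝ) ^ 2 * Y ^ (1 + 3 * η - 2 * β) := by ring
        _ ≤ 2 * (R : ℝ) ^ (e - s + 3 * η * v) := by linarith
  have h3 := sum_le_sum hterm
  rw [sum_const, card_range, nsmul_eq_mul] at h3
  have h4 : (K : ℝ) * (((2 * c5) ^ (2 * P) * (R : ℝ) ^ (η * (2 * P))) *
      (C * (2 * (R : ℝ) ^ (e - s + 3 * η * v)))) ≤ c5 * (2 * c5) ^ (2 * P) * (2 * C) * (R : ℝ) ^ e := by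
    calc (K : ℝ) * (((2 * c5) ^ (2 * P) * (R : ℝ) ^ (η * (2 * P))) *
        (C * (2 * (R : ℝ) ^ (e - s + 3 * η * v)))) ≤
        (c5 * (R : ℝ) ^ η) * (((2 * c5) ^ (2 * P) * (R : ℝ) ^ (η * (2 * P))) *
        (C * (2 * (R : ℝ) ^ (e - s + 3 * η * v)))) :=
          mul_le_mul_of_nonneg_right hK3 (by positivity)
      _ = c5 * (2 * c5) ^ (2 * P) * (2 * C) *
          (R : ℝ) ^ (η + (η * (2 * P) + (e - s + 3 * η * v))) := by
          rw [Real.rpow_add hR0 η, Real.rpow_add hR0 (η * (2 * P))]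
          ring
      _ ≤ _ := by
          apply mul_le_mul_of_nonneg_left _ (by positivity)
          apply Real.rpow_le_rpow_of_exponent_le hR1
          nlinarith
  calc _ ≤ 1 + c5 * (2 * c5) ^ (2 * P) * (2 * C) * (R : ℝ) ^ e := by linarith
    _ ≤ (Cnt ρ R₀ + 1 + c5 * (2 * c5) ^ (2 * P) * (2 * C)) * (R : ℝ) ^ e := by
        nlinarith [mul_nonneg (hS0 R₀) (by positivity : (0 : ℝ) ≤ (R : ℝ) ^ e)]

end Pool.Agent.T9h89.FF
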