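import Mathlib

/-! The choice of the parameters in (E1H) of `T9h54/FF/Spec3.lean` (`T = R ^ t`). -/

set_option autoImplicit false

namespace Pool.Agent.T9h89.FF

theorem par (b e : ℝ) (hb : 2 / 3 < b) (hb1 : b < 1) (h1 : 16 * (1 - b) / (5 - 2 * b) < e)
    (h2 : 3 * (1 - b) / b < e) :
    ∃ ε x u v s : ℝ, 0 < ε ∧ 0 < x ∧ 0 < u ∧ 0 < v ∧ 0 < s ∧ ∃ K : ℕ,
      (∀ t : ℝ, ε ≤ t → t ≤ x + 2 * ε → ∃ k : ℕ, 1 ≤ k ∧ k ≤ K ∧ u ≤ k * t ∧ k * t ≤ v) ∧
      1 / 2 - x * b + ε * (1 - b) + s < 0 ∧ 2 - u * (2 * b - 1) + s < e ∧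
      v * (2 - 2 * b) + s < e := by
  have h1' : 16 * (1 - b) / (5 - 2 * b) < 3 / 2 := by
    rw [div_lt_iff₀ (by linarith)]; linarith
  have h2' : 3 * (1 - b) / b < 3 / 2 := by
    rw [div_lt_iff₀ (by linarith)]; linarith
  obtain ⟨e', he1, he2⟩ := exists_between
    (max_lt (lt_min h1 h1') (lt_min h2 h2') :
      max (16 * (1 - b) / (5 - 2 * b)) (3 * (1 - b) / b) < min e (3 / 2))
  have k1 : 16 * (1 - b) < e' * (5 - 2 * b) :=
    (div_lt_iff₀ (by linarith)).1 ((le_max_left _ _).trans_lt he1)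
  have k2 : 3 * (1 - b) < e' * b := (div_lt_iff₀ (by linarith)).1 ((le_max_right _ _).trans_lt he1)
  have k3 : e' < e := he2.trans_le (min_le_left _ _)
  have k4 : e' < 3 / 2 := he2.trans_le (min_le_right _ _)
  have hc : 0 < 2 * b - 1 := by linarith
  have hd : 0 < 2 - 2 * b := by linarith
  have he0 : 0 < e' := by
    have : 0 < e' * b := lt_of_le_of_lt (by linarith) k2
    exact pos_of_mul_pos_left this (by linarith)
  set u₀ := (2 - e') / (2 * b - 1) with hu₀
  set v₀ := e' / (2 - 2 * b) with hv₀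
  have hu₀e : u₀ * (2 * b - 1) = 2 - e' := div_mul_cancel₀ _ hc.ne'
  have hv₀e : v₀ * (2 - 2 * b) = e' := div_mul_cancel₀ _ hd.ne'
  have hu₀p : 0 < u₀ := div_pos (by linarith) hc
  have g1 : 4 * u₀ / 3 < v₀ := by
    have : 4 * (2 - e') * (2 - 2 * b) < 3 * e' * (2 * b - 1) := by nlinarith
    rw [hu₀, hv₀, lt_div_iff₀ hd]
    have e3 : 4 * ((2 - e') / (2 * b - 1)) / 3 * (2 - 2 * b) =
        (4 * (2 - e') * (2 - 2 * b)) / (3 * (2 * b - 1)) := by
      field_simp
    rw [e3, div_lt_iff₀ (by positivity)]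
    linarith
  have g2 : 3 / (2 * b) < v₀ := by
    rw [hv₀, div_lt_div_iff₀ (by linarith) hd]
    nlinarith
  set g := v₀ - max (4 * u₀ / 3) (3 / (2 * b)) with hg
  have hgp : 0 < g := by rw [hg]; linarith [max_lt g1 g2]
  have g3 : 4 * u₀ / 3 ≤ v₀ - g := by rw [hg]; linarith [le_max_left (4 * u₀ / 3) (3 / (2 * b))]
  have g4 : 3 / (2 * b) ≤ v₀ - g := by rw [hg]; linarith [le_max_right (4 * u₀ / 3) (3 / (2 * b))]
  have hxb : 1 / (2 * b) * b = 1 / 2 := by
    have : b ≠ 0 := by linarith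
    field_simp
  have hx3 : 3 / (2 * b) = 3 * (1 / (2 * b)) := by ring
  have hx0 : 0 < 1 / (2 * b) := by have : 0 < b := by linarith
                                   positivity
  set ε := g / 200 with hε
  set x := 1 / (2 * b) + g / 12 with hx
  set u := u₀ + g / 8 with hu
  set v := v₀ - g / 4 with hv
  have hεp : 0 < ε := by positivity
  have hup : 0 < u := by positivity
  have huv : 4 * u / 3 ≤ v := by rw [hu, hv]; linarith
  have hvp : 0 < v := by linarith
  refine ⟨ε, x, u, v, min (g / 200) (g * (1 - b) / 4), hεp, by positivity, hup, hvp,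
    lt_min (by positivity) (by have : 0 < 1 - b := by linarith
                               positivity), ⌈u / ε⌉₊ + 3, ?_, ?_, ?_, ?_⟩
  · intro t ht1 ht2
    by_cases h3 : u ≤ 3 * t
    · refine ⟨3, by norm_num, by omega, by push_cast; linarith, ?_⟩
      push_cast
      have : 3 * t ≤ 3 * (x + 2 * ε) := by linarith
      refine this.trans ?_
      rw [hx, hε, hv]
      linarith
    · push Not at h3
      have htp : 0 < t := lt_of_lt_of_le hεp ht1
      refine ⟨⌈u / t⌉₊, ?_, ?_, ?_, ?_⟩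
      · exact Nat.one_le_iff_ne_zero.2 (Nat.ceil_pos.2 (by positivity)).ne'
      · have : ⌈u / t⌉₊ ≤ ⌈u / ε⌉₊ :=
          Nat.ceil_le_ceil (div_le_div_of_nonneg_left hup.le hεp ht1)
        omega
      · have := Nat.le_ceil (u / t)
        rwa [div_le_iff₀ htp] at this
      · have h4 := Nat.ceil_lt_add_one (show 0 ≤ u / t by positivity)
        have h5 : (⌈u / t⌉₊ : ℝ) * t < (u / t + 1) * t := mul_lt_mul_of_pos_right h4 htp
        have h6 : (u / t + 1) * t = u + t := by field_simp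
        linarith
  · have hm := min_le_left (g / 200) (g * (1 - b) / 4)
    have e1 : x * b = 1 / 2 + g / 12 * b := by rw [hx, add_mul, hxb]
    rw [e1, hε]
    nlinarith
  · have hm := min_le_left (g / 200) (g * (1 - b) / 4)
    have e1 : u * (2 * b - 1) = 2 - e' + g / 8 * (2 * b - 1) := by rw [hu, add_mul, hu₀e]
    rw [e1]
    nlinarith
  · have hm := min_le_right (g / 200) (g * (1 - b) / 4)
    have e1 : v * (2 - 2 * b) = e' - g / 4 * (2 - 2 * b) := by rw [hv, sub_mul, hv₀e]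
    rw [e1]
    have : 0 < g * (1 - b) := mul_pos hgp (by linarith)
    nlinarith

end Pool.Agent.T9h89.FF
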